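import Mathlib

namespace Pool.Agent.H.MP_bbb74b_al

variable {X : Type} [DecidableEq X] (m : ℕ)

abbrev M (X : Type) (m : ℕ) : Type := ZMod m × X → ZMod 2

def e (q : ZMod m) (x : X) : M X m := Pi.single (q, x) 1

omit [DecidableEq X] in
theorem two (f : M X m) : f + f = 0 := by
  ext i
  exact CharTwo.add_self_eq_zero _

def gen (x : X) : Equiv.Perm (ZMod m × M X m) where
  toFun p := (p.1 + 1, p.2 + e m p.1 x)
  invFun p := (p.1 - 1, p.2 - e m (p.1 - 1) x)
  left_inv p := by simp
  right_inv p := by simp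

def rho : FreeGroup X →* Equiv.Perm (ZMod m × M X m) := FreeGroup.lift (gen m)

def len : FreeGroup X →* Multiplicative ℤ := FreeGroup.lift (fun _ => Multiplicative.ofAdd 1)

theorem rho_form (g : FreeGroup X) : ∃ d : ZMod m → M X m, ∀ q f,
    rho m g (q, f) = (q + ((len g).toAdd : ℤ), f + d q) := by
  induction g using FreeGroup.induction_on with
  | C1 => exact ⟨0, by simp⟩
  | of x => exact ⟨fun q => e m q x, by simp [rho, len, gen]⟩
  | inv_of x _ => exact ⟨fun q => - e m (q - 1) x, by
      intro q f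
      rw [map_inv, Equiv.Perm.inv_eq_iff_eq]
      simp [rho, len, gen, sub_eq_add_neg]⟩
  | mul g h hg hh =>
    obtain ⟨d1, h1⟩ := hg
    obtain ⟨d2, h2⟩ := hh
    refine ⟨fun q => d2 q + d1 (q + ((len h).toAdd : ℤ)), fun q f => ?_⟩
    rw [map_mul, Equiv.Perm.mul_apply, h2, h1]
    simp [add_comm, add_left_comm]

def E : List X → M X m
  | [] => 0
  | x :: L => E L + e m L.length x

theorem rho_list (f : M X m) : ∀ L : List X,
    rho m (L.map FreeGroup.of).prod (0, f) = ((L.length : ZMod m), f + E m L)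
  | [] => by simp [E]
  | x :: L => by
    rw [List.map_cons, List.prod_cons, map_mul, Equiv.Perm.mul_apply, rho_list f L]
    simp [rho, gen, E, add_assoc]

omit [DecidableEq X] in
theorem len_list : ∀ L : List X, (len (L.map FreeGroup.of).prod).toAdd = L.length
  | [] => by simp
  | x :: L => by
    rw [List.map_cons, List.prod_cons, map_mul, toAdd_mul, len_list L]
    simp [len, add_comm]

theorem E_zero (k : ℕ) (hk : k < m) (x : X) : ∀ L : List X, L.length ≤ k → E m L (k, x) = 0
  | [], _ => rfl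
  | y :: L, h => by
    have h' : L.length < k := h
    have : ((k : ZMod m), x) ≠ ((L.length : ZMod m), y) := by
      intro e
      have := (ZMod.natCast_eq_natCast_iff' _ _ _).mp (congrArg Prod.fst e)
      rw [Nat.mod_eq_of_lt hk, Nat.mod_eq_of_lt (h'.trans hk)] at this
      omega
    simp [E, e, E_zero k hk x L h'.le, Pi.single_eq_of_ne this]

theorem E_inj : ∀ L1 L2 : List X, L1.length = L2.length → L1.length ≤ m → E m L1 = E m L2 → L1 = L2
  | [], [], _, _, _ => rfl
  | [], _ :: _, h, _, _ => by simp at h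
  | _ :: _, [], h, _, _ => by simp at h
  | x :: L1, y :: L2, h, hm, hE => by
    have h' : L1.length = L2.length := by simpa using h
    have h1 := congrFun hE ((L1.length : ZMod m), x)
    simp only [E, Pi.add_apply] at h1 hE
    rw [E_zero m _ hm x L1 le_rfl, E_zero m _ hm x L2 h'.ge, ← h'] at h1
    obtain rfl : x = y := by
      by_contra hne
      simp [e, hne] at h1
    rw [h', add_left_inj] at hE
    rw [E_inj L1 L2 h' (by simp at hm; omega) hE]

omit m in
theorem square (A Z : FreeGroup X) (hZ : len Z = 1) (L : List X)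
    (h : (L.map FreeGroup.of).prod = A * Z⁻¹ * A * Z) : ∃ U, A * Z⁻¹ * A * Z = U * U := by
  have h1 := len_list L
  rw [h] at h1
  simp only [map_mul, map_inv, hZ, inv_one, mul_one, toAdd_mul] at h1
  obtain ⟨m, hm⟩ : ∃ m : ℕ, (len A).toAdd = m := ⟨(len A).toAdd.toNat, by omega⟩
  have hL : L.length = m + m := by omega
  obtain ⟨d1, k1⟩ := rho_form m A
  obtain ⟨d2, k2⟩ := rho_form m Z
  simp only [hm, hZ, Int.cast_natCast, ZMod.natCast_self, add_zero, toAdd_one, Int.cast_zero]
    at k1 k2
  have k3 : ∀ f, rho m Z⁻¹ (0, f) = (0, f + d2 0) := by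
    intro f
    rw [map_inv, Equiv.Perm.inv_eq_iff_eq, k2, add_assoc, two, add_zero]
  have l1 : (L.take m).length = m := by simp; omega
  have l2 : (L.drop m).length = m := by simp; omega
  have h2 : rho m (L.map FreeGroup.of).prod (0, 0) = (0, E m (L.drop m) + E m (L.take m)) := by
    rw [← List.take_append_drop m L, List.map_append, List.prod_append, map_mul,
      Equiv.Perm.mul_apply, rho_list, l2, ZMod.natCast_self, rho_list, l1, ZMod.natCast_self,
      List.take_append_drop, zero_add]
  rw [h] at h2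
  simp only [map_mul, Equiv.Perm.mul_apply, k1, k2, k3] at h2
  have h3 : E m (L.take m) = E m (L.drop m) := by
    have := congrArg Prod.snd h2
    simp only at this
    linear_combination -this + two m (d1 0) + two m (d2 0) - two m (E m (L.drop m))
  have h4 := E_inj m _ _ (l1.trans l2.symm) l1.le h3
  refine ⟨((L.take m).map FreeGroup.of).prod, ?_⟩
  rw [← h, ← List.prod_append, ← List.map_append]
  nth_rewrite 2 [h4]
  rw [List.take_append_drop]

def B : Matrix.SpecialLinearGroup (Fin 2) ℤ := ⟨!![1, 1; 0, 1], by simp⟩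
def C : Matrix.SpecialLinearGroup (Fin 2) ℤ := ⟨!![1, 0; 1, 1], by simp⟩

theorem nonsq (g : Matrix.SpecialLinearGroup (Fin 2) ℤ) :
    B * (B * C * B⁻¹ * C⁻¹)⁻¹ * B * (B * C * B⁻¹ * C⁻¹) ≠ g * g := by
  intro h
  have h0 : (B * (B * C * B⁻¹ * C⁻¹)⁻¹ * B * (B * C * B⁻¹ * C⁻¹)).1 = !![0, 1; -1, 1] := by
    decide
  rw [h] at h0
  have h1 := congrFun (congrFun h0 0) 0
  have h2 := congrFun (congrFun h0 1) 1
  have h3 := g.2
  rw [Matrix.det_fin_two] at h3
  simp [Matrix.mul_apply, Fin.sum_univ_two] at h1 h2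
  have : (g.1 0 0 + g.1 1 1) ^ 2 = 3 := by nlinarith
  generalize g.1 0 0 + g.1 1 1 = t at this
  have : t ≤ 1 := by nlinarith
  have : -1 ≤ t := by nlinarith
  nlinarith

end Pool.Agent.H.MP_bbb74b_al
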